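import Mathlib

/-! Counting lemma: if `(X^r + p X g)(D) Y = 0` then the additive group `R[D] Y` has at most `p^r`
elements of order dividing `p`. -/

namespace Pool.Agent.Helper33RWB

open Polynomial

section cnt
variable {R M : Type*} [CommRing R] [AddCommGroup M] [Module R M]

theorem card_ker_eq {G : Type*} [AddCommGroup G] [Finite G] (f : G →+ G) :
    Nat.card f.ker = Nat.card (G ⧸ f.range) := by
  have h1 := AddSubgroup.card_eq_card_quotient_mul_card_addSubgroup f.ker
  have h2 := AddSubgroup.card_eq_card_quotient_mul_card_addSubgroup f.range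
  have h3 : Nat.card (G ⧸ f.ker) = Nat.card f.range :=
    Nat.card_congr (QuotientAddGroup.quotientKerEquivRange f).toEquiv
  rw [h3] at h1
  have hpos : 0 < Nat.card f.range := Nat.card_pos
  rw [h1, mul_comm] at h2
  exact Nat.eq_of_mul_eq_mul_right hpos h2

/-- expansion modulo `p` -/
theorem expand (p r : ℕ) (hR : ∀ c : R, ∃ n : ℕ, ∃ c' : R, c = (n : R) + (p : R) * c')
    (D : Module.End R M) (Y : M) (g : R[X])
    (h0 : aeval D (X ^ r + C (p : R) * (X * g)) Y = 0) (h : R[X]) :
    ∃ w : ℕ → ℕ, ∃ h' : R[X], aeval D h Y = (∑ i ∈ Finset.range r, w i • (D ^ i) Y) + (p : R) • aeval D h' Y := by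
  induction h using Polynomial.induction_on' with
  | add f g hf hg =>
    obtain ⟨w, f', hf'⟩ := hf
    obtain ⟨v, g', hg'⟩ := hg
    refine ⟨fun i => w i + v i, f' + g', ?_⟩
    rw [map_add, LinearMap.add_apply, hf', hg', map_add, LinearMap.add_apply, smul_add]
    simp only [add_smul, Finset.sum_add_distrib]
    abel
  | monomial k c =>
    obtain ⟨n, c', hc⟩ := hR c
    have hmono : aeval D (monomial k c) Y = c • (D ^ k) Y := by
      rw [aeval_monomial, Module.End.mul_apply]; rfl
    rcases Nat.lt_or_ge k r with hk | hk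
    · refine ⟨fun i => if i = k then n else 0, monomial k c', ?_⟩
      rw [hmono, aeval_monomial, Module.End.mul_apply]
      have : ∑ i ∈ Finset.range r, (if i = k then n else 0) • (D ^ i) Y = n • (D ^ k) Y := by
        rw [Finset.sum_eq_single k]
        · rw [if_pos rfl]
        · intro i _ hi; rw [if_neg hi, zero_smul]
        · intro hh; exact absurd (Finset.mem_range.2 hk) hh
      rw [this]
      conv_lhs => rw [hc]
      rw [add_smul, Nat.cast_smul_eq_nsmul, mul_smul]
      rfl
    · refine ⟨fun _ => 0, -(monomial (k - r) c * (X * g)), ?_⟩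
      rw [hmono]
      simp only [zero_smul, Finset.sum_const_zero, zero_add]
      have e1 : (D ^ r) Y = -((p : R) • aeval D (X * g) Y) := by
        rw [map_add, LinearMap.add_apply, map_pow, aeval_X, map_mul (aeval D) (C (p : R)) (X * g), aeval_C,
          Module.End.mul_apply] at h0
        exact eq_neg_of_add_eq_zero_left h0
      have e2 : (D ^ k) Y = (D ^ (k - r)) ((D ^ r) Y) := by
        rw [← Module.End.mul_apply, ← pow_add, Nat.sub_add_cancel hk]
      rw [e2, e1, map_neg, map_neg, LinearMap.neg_apply, smul_neg, smul_neg, map_mul (aeval D) (monomial (k - r) c) (X * g),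
        Module.End.mul_apply, aeval_monomial, Module.End.mul_apply, LinearMap.map_smul, smul_comm]
      rfl

theorem expand' (p r : ℕ) (hp : 0 < p) (hR : ∀ c : R, ∃ n : ℕ, ∃ c' : R, c = (n : R) + (p : R) * c')
    (D : Module.End R M) (Y : M) (g : R[X])
    (h0 : aeval D (X ^ r + C (p : R) * (X * g)) Y = 0) (h : R[X]) :
    ∃ w : Fin r → Fin p, ∃ h' : R[X], aeval D h Y =
      (∑ i : Fin r, (w i).val • (D ^ i.val) Y) + (p : R) • aeval D h' Y := by
  obtain ⟨w, h', he⟩ := expand p r hR D Y g h0 h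
  refine ⟨fun i => ⟨w i % p, Nat.mod_lt _ hp⟩, h' + ∑ i ∈ Finset.range r, C ((w i / p : ℕ) : R) * X ^ i, ?_⟩
  rw [he, map_add, LinearMap.add_apply, smul_add]
  have e1 : ∑ i : Fin r, (w i.val % p) • (D ^ i.val) Y = ∑ i ∈ Finset.range r, (w i % p) • (D ^ i) Y :=
    Fin.sum_univ_eq_sum_range (fun i => (w i % p) • (D ^ i) Y) r
  have e2 : (p : R) • (aeval D (∑ i ∈ Finset.range r, C ((w i / p : ℕ) : R) * X ^ i)) Y =
      ∑ i ∈ Finset.range r, (p * (w i / p)) • (D ^ i) Y := by
    rw [map_sum, LinearMap.sum_apply, Finset.smul_sum]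
    refine Finset.sum_congr rfl fun i _ => ?_
    rw [map_mul, aeval_C, map_pow, aeval_X, Module.End.mul_apply, mul_smul, Nat.cast_smul_eq_nsmul]
    congr 1
    exact Nat.cast_smul_eq_nsmul R _ _
  have e3 : ∑ i ∈ Finset.range r, w i • (D ^ i) Y =
      ∑ i ∈ Finset.range r, (w i % p) • (D ^ i) Y + ∑ i ∈ Finset.range r, (p * (w i / p)) • (D ^ i) Y := by
    rw [← Finset.sum_add_distrib]
    refine Finset.sum_congr rfl fun i _ => ?_
    rw [← add_smul, Nat.mod_add_div]
  simp only
  rw [e1, e2, e3]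
  abel

/-- **Counting lemma.** -/
theorem count_lemma [Finite M] (p r : ℕ) (hp : 0 < p) (hR : ∀ c : R, ∃ n : ℕ, ∃ c' : R, c = (n : R) + (p : R) * c')
    (D : Module.End R M) (Y : M) (g : R[X])
    (h0 : aeval D (X ^ r + C (p : R) * (X * g)) Y = 0) {T : Type*} (τ : T → M) (hτ : Function.Injective τ)
    (h1 : ∀ t, (p : R) • τ t = 0) (h2 : ∀ t, ∃ h : R[X], τ t = aeval D h Y) :
    Nat.card T ≤ p ^ r := by
  let φ : R[X] →ₗ[R] M := (LinearMap.applyₗ Y).comp (aeval D : R[X] →ₐ[R] Module.End R M).toLinearMap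
  have hφ : ∀ h, φ h = aeval D h Y := fun h => rfl
  let G := LinearMap.range φ
  have : Finite G := inferInstance
  let μ : G →+ G := (LinearMap.lsmul R G (p : R)).toAddMonoidHom
  have hμ : ∀ z : G, ((μ z : G) : M) = (p : R) • (z : M) := fun z => rfl
  have hcard := card_ker_eq μ
  have hT : Nat.card T ≤ Nat.card μ.ker := by
    choose hh hhh using h2
    let ι : T → μ.ker := fun t => ⟨⟨τ t, ⟨hh t, by rw [hφ, hhh t]⟩⟩, by
      rw [AddMonoidHom.mem_ker]
      apply Subtype.ext
      rw [hμ]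
      exact h1 t⟩
    refine Nat.card_le_card_of_injective ι ?_
    intro s t hst
    apply hτ
    have := congrArg (fun z : μ.ker => ((z : G) : M)) hst
    exact this
  refine le_trans hT ?_
  rw [hcard]
  let σ : (Fin r → Fin p) → G ⧸ μ.range := fun w =>
    QuotientAddGroup.mk (⟨∑ i : Fin r, (w i).val • (D ^ i.val) Y, ⟨∑ i : Fin r, C (((w i).val : ℕ) : R) * X ^ i.val, by
      rw [hφ, map_sum, LinearMap.sum_apply]
      refine Finset.sum_congr rfl fun i _ => ?_
      rw [map_mul, aeval_C, map_pow, aeval_X, Module.End.mul_apply]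
      exact Nat.cast_smul_eq_nsmul R _ _⟩⟩ : G)
  have hσ : Function.Surjective σ := by
    intro q
    obtain ⟨⟨z, h, hz⟩, rfl⟩ := QuotientAddGroup.mk_surjective q
    obtain ⟨w, h', he⟩ := expand' p r hp hR D Y g h0 h
    refine ⟨w, ?_⟩
    rw [QuotientAddGroup.eq]
    refine ⟨⟨aeval D h' Y, ⟨h', hφ h'⟩⟩, ?_⟩
    apply Subtype.ext
    change (p : R) • aeval D h' Y = -(∑ i : Fin r, (w i).val • (D ^ i.val) Y) + z
    rw [← hz, hφ, he]
    abel
  have h3 := Nat.card_le_card_of_surjective σ hσ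
  rw [Nat.card_fun, Nat.card_fin, Nat.card_fin] at h3
  exact h3

end cnt

end Pool.Agent.Helper33RWB
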