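import Mathlib

/-! Ring lemma.  `S` a commutative `R`-algebra, `N^a = 0`, `P^b = p`, `b` a unit of `R`, `P` nilpotent.
Then `p^(a-1) s` lies in `R[P + N + N P]` for every `s` in `R[P, N]`. -/

namespace Pool.Agent.Helper33RWB

open Polynomial

section rng
variable {R S : Type*} [CommRing R] [CommRing S] [Algebra R S]

/-- the ideal `(P, N)` -/
abbrev WW (P N : S) : Ideal S := Ideal.span {P, N}

theorem P_mem (P N : S) : P ∈ WW P N := Ideal.subset_span (by simp)
theorem N_mem (P N : S) : N ∈ WW P N := Ideal.subset_span (by simp)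

/-- every element of `R[P, N]` is `o + N s` with `o` in `R[P]` -/
theorem decomp (P N : S) (htop : Algebra.adjoin R {P, N} = ⊤) (s : S) :
    ∃ f : R[X], ∃ s' : S, s = aeval P f + N * s' := by
  have hs : s ∈ Algebra.adjoin R ({P, N} : Set S) := by rw [htop]; trivial
  induction hs using Algebra.adjoin_induction with
  | mem x hx =>
    rcases hx with rfl | hx
    · exact ⟨X, 0, by rw [aeval_X, mul_zero, add_zero]⟩
    · rw [Set.mem_singleton_iff] at hx
      subst hx
      exact ⟨0, 1, by rw [map_zero, zero_add, mul_one]⟩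
  | algebraMap r => exact ⟨C r, 0, by rw [aeval_C, mul_zero, add_zero]⟩
  | add x y _ _ hx hy =>
    obtain ⟨f, s, rfl⟩ := hx
    obtain ⟨g, t, rfl⟩ := hy
    exact ⟨f + g, s + t, by rw [map_add]; ring⟩
  | mul x y _ _ hx hy =>
    obtain ⟨f, s, rfl⟩ := hx
    obtain ⟨g, t, rfl⟩ := hy
    exact ⟨f * g, s * aeval P g + t * aeval P f + N * s * t, by rw [map_mul]; ring⟩

/-- `(P,N)^(w)` decomposed -/
theorem W_decomp (P N : S) (htop : Algebra.adjoin R {P, N} = ⊤) (w : ℕ) (s : S) (hs : s ∈ WW P N ^ w) :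
    ∃ f : R[X], ∃ s' ∈ WW P N ^ (w - 1), s = P ^ w * aeval P f + N * s' := by
  induction w generalizing s with
  | zero =>
    obtain ⟨f, s', h⟩ := decomp P N htop s
    exact ⟨f, s', by simp, by rw [pow_zero, one_mul]; exact h⟩
  | succ w ih =>
    rw [pow_succ] at hs
    induction hs using Submodule.mul_induction_on' with
    | mem_mul_mem x hx y hy =>
      rw [Ideal.mem_span_pair] at hy
      obtain ⟨c, d, rfl⟩ := hy
      have hcx : c * x ∈ WW P N ^ w := Ideal.mul_mem_left _ _ hx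
      obtain ⟨f, s', hs', he⟩ := ih (c * x) hcx
      refine ⟨f, P * s' + d * x, ?_, ?_⟩
      · rw [Nat.add_sub_cancel]
        refine Ideal.add_mem _ ?_ (Ideal.mul_mem_left _ _ hx)
        rcases Nat.eq_zero_or_pos w with rfl | hw
        · simp
        · obtain ⟨v, rfl⟩ : ∃ v, w = v + 1 := ⟨w - 1, by omega⟩
          rw [Nat.add_sub_cancel] at hs'
          rw [pow_succ, mul_comm P s']
          exact Ideal.mul_mem_mul hs' (P_mem P N)
      · have : x * (c * P + d * N) = (c * x) * P + d * x * N := by ring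
        rw [this, he]; ring
    | add x hx y hy h1 h2 =>
      obtain ⟨f, s, hs, rfl⟩ := h1
      obtain ⟨g, t, ht, rfl⟩ := h2
      exact ⟨f + g, s + t, Ideal.add_mem _ hs ht, by rw [map_add]; ring⟩

/-- the value of a polynomial at `P + N t` -/
theorem aeval_shift (P N t : S) (f : R[X]) : ∃ s : S, aeval (P + N * t) f = aeval P f + N * s := by
  have h := Polynomial.sub_dvd_eval_sub (P + N * t) P (f.map (algebraMap R S))
  obtain ⟨s, hs⟩ := h
  rw [eval_map_algebraMap, eval_map_algebraMap] at hs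
  refine ⟨t * s, ?_⟩
  rw [sub_eq_iff_eq_add] at hs
  rw [hs]; ring

/-- `(P + N t)^b - P^b = N u`, `u = b t P^(b-1) + N u'`, `u' ∈ (P,N)^(b-2)` -/
theorem pow_shift (P N t : S) (b : ℕ) (hb : 1 ≤ b) :
    ∃ u' ∈ WW P N ^ (b - 2), (P + N * t) ^ b - P ^ b = N * ((b : S) * t * P ^ (b - 1) + N * u') := by
  induction b with
  | zero => omega
  | succ b ih =>
    rcases Nat.eq_zero_or_pos b with rfl | hb0
    · exact ⟨0, Submodule.zero_mem _, by simp⟩
    · obtain ⟨u', hu', he⟩ := ih hb0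
      refine ⟨(b : S) * t ^ 2 * P ^ (b - 1) + P * u' + N * t * u', ?_, ?_⟩
      · refine Ideal.add_mem _ (Ideal.add_mem _ ?_ ?_) ?_
        · have : P ^ (b - 1) ∈ WW P N ^ (b - 1) := Ideal.pow_mem_pow (P_mem P N) _
          exact Ideal.mul_mem_left _ _ this
        · rcases Nat.lt_or_ge b 2 with hb2 | hb2
          · rw [show b + 1 - 2 = 0 by omega]; simp
          · rw [show b + 1 - 2 = (b - 2) + 1 by omega, pow_succ, mul_comm P u']
            exact Ideal.mul_mem_mul hu' (P_mem P N)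
        · rcases Nat.lt_or_ge b 2 with hb2 | hb2
          · rw [show b + 1 - 2 = 0 by omega]; simp
          · rw [show b + 1 - 2 = (b - 2) + 1 by omega, pow_succ, show N * t * u' = t * (u' * N) by ring]
            exact Ideal.mul_mem_left _ _ (Ideal.mul_mem_mul hu' (N_mem P N))
      · have e1 : (P + N * t) ^ b = P ^ b + N * ((b : S) * t * P ^ (b - 1) + N * u') := by
          rw [← he]; ring
        obtain ⟨c, rfl⟩ : ∃ c, b = c + 1 := ⟨b - 1, by omega⟩
        rw [pow_succ, e1]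
        simp only [Nat.add_sub_cancel]
        push_cast
        ring

theorem u_pow (P N α β : S) (b : ℕ) (hα : α ∈ WW P N ^ (b - 1)) (hβ : β ∈ WW P N ^ (b - 2)) (k : ℕ) :
    ∃ γ ∈ WW P N ^ ((b - 1) * k - 1), (α + N * β) ^ k = α ^ k + N * γ := by
  induction k with
  | zero => exact ⟨0, Submodule.zero_mem _, by simp⟩
  | succ k ih =>
    obtain ⟨γ, hγ, he⟩ := ih
    have key : ∀ {x y : S} {i j l : ℕ}, x ∈ WW P N ^ i → y ∈ WW P N ^ j → l ≤ i + j → x * y ∈ WW P N ^ l := by
      intro x y i j l hx hy hl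
      have := Ideal.mul_mem_mul hx hy
      rw [← pow_add] at this
      exact Ideal.pow_le_pow_right hl this
    have hαk : α ^ k ∈ WW P N ^ ((b - 1) * k) := by
      rw [pow_mul]; exact Ideal.pow_mem_pow hα k
    have hN1 : N ∈ WW P N ^ 1 := by rw [pow_one]; exact N_mem P N
    have hb : (b - 1) * (k + 1) = (b - 1) * k + (b - 1) := by ring
    refine ⟨α ^ k * β + γ * α + (N * γ) * β, ?_, ?_⟩
    · refine Ideal.add_mem _ (Ideal.add_mem _ (key hαk hβ (by omega)) (key hγ hα (by omega))) ?_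
      exact key (key hN1 hγ le_rfl) hβ (by omega)
    · rw [pow_succ, he]; ring

/-- a polynomial inverse of `1 + P` -/
theorem inv_poly (P : S) (hnil : IsNilpotent P) : ∃ v : R[X], (1 + P) * aeval P v = 1 := by
  obtain ⟨m, hm⟩ := hnil
  refine ⟨∑ i ∈ Finset.range m, (-X) ^ i, ?_⟩
  have h1 : aeval P (∑ i ∈ Finset.range m, (-X : R[X]) ^ i) = ∑ i ∈ Finset.range m, (-P) ^ i := by
    rw [map_sum]
    refine Finset.sum_congr rfl fun i _ => ?_
    rw [map_pow, map_neg, aeval_X]
  rw [h1]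
  have h2 := mul_neg_geom_sum (-P) m
  rw [sub_neg_eq_add] at h2
  rw [h2, neg_pow, hm, mul_zero, sub_zero]

theorem main_step (P N : S) (p a b : ℕ) (hb : 1 ≤ b) (hN : N ^ a = 0) (hP : P ^ b = (p : S))
    (hbu : IsUnit (b : R)) (hnil : IsNilpotent P) (htop : Algebra.adjoin R {P, N} = ⊤) (i k : ℕ) (hik : i + k = a)
    (s : S) (hs : s ∈ WW P N ^ (b * (a - 1) - k)) :
    N ^ k * s ∈ Algebra.adjoin R {P + N * (1 + P)} := by
  induction i generalizing k s with
  | zero =>
    rw [zero_add] at hik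
    subst hik
    rw [hN, zero_mul]
    exact Subalgebra.zero_mem _
  | succ i ih =>
    set d : S := P + N * (1 + P) with hd
    obtain ⟨f, s', hs', rfl⟩ := W_decomp P N htop _ s hs
    rw [mul_add, ← mul_assoc (N ^ k) N s', ← pow_succ]
    have ha1 : k + 1 ≤ a := by omega
    have hB : b * (a - 1) = b * (a - 1 - k) + b * k := by rw [← mul_add]; congr 1; omega
    have hbk : b * k = (b - 1) * k + k := by
      obtain ⟨c, rfl⟩ : ∃ c, b = c + 1 := ⟨b - 1, by omega⟩
      rw [Nat.add_sub_cancel]; ring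
    refine Subalgebra.add_mem _ ?_ (ih (k + 1) (by omega) s' (by rw [← Nat.sub_sub]; exact hs'))
    obtain ⟨v, hv⟩ := inv_poly (R := R) P hnil
    obtain ⟨β, hβ⟩ := hbu
    obtain ⟨u', hu', hu⟩ := pow_shift P N (1 + P) b hb
    set α : S := (b : S) * (1 + P) * P ^ (b - 1) with hα
    have hαm : α ∈ WW P N ^ (b - 1) := Ideal.mul_mem_left _ _ (Ideal.pow_mem_pow (P_mem P N) _)
    obtain ⟨γ, hγ, hγe⟩ := u_pow P N α u' b hαm hu' k
    set h : R[X] := (C ((β⁻¹ : Rˣ) : R) * v) ^ k * f with hh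
    obtain ⟨s1, hs1⟩ := aeval_shift P N (1 + P) h
    have hval : ((b : S) * (1 + P)) ^ k * aeval P h = aeval P f := by
      rw [hh, map_mul, map_pow, map_mul, aeval_C, ← mul_assoc, ← mul_pow]
      have : (b : S) * (1 + P) * ((algebraMap R S) ((β⁻¹ : Rˣ) : R) * aeval P v) = 1 := by
        have e1 : (b : S) = algebraMap R S (β : R) := by rw [hβ, map_natCast]
        rw [e1]
        have e2 : algebraMap R S (β : R) * algebraMap R S ((β⁻¹ : Rˣ) : R) = 1 := by
          rw [← map_mul, Units.mul_inv, map_one]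
        calc _ = (algebraMap R S (β : R) * algebraMap R S ((β⁻¹ : Rˣ) : R)) * ((1 + P) * aeval P v) := by ring
          _ = 1 := by rw [e2, hv, one_mul]
      rw [this, one_pow, one_mul]
    have hF : (p : S) ^ (a - 1 - k) * (d ^ b - (p : S)) ^ k * aeval d h ∈ Algebra.adjoin R {d} := by
      have hdm : d ∈ Algebra.adjoin R {d} := Algebra.self_mem_adjoin_singleton R d
      have hpm : (p : S) ∈ Algebra.adjoin R {d} := natCast_mem _ p
      refine Subalgebra.mul_mem _ (Subalgebra.mul_mem _ (Subalgebra.pow_mem _ hpm _)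
        (Subalgebra.pow_mem _ (Subalgebra.sub_mem _ (Subalgebra.pow_mem _ hdm _) hpm) _)) ?_
      rw [Algebra.adjoin_singleton_eq_range_aeval]
      exact ⟨h, rfl⟩
    have hG : N ^ (k + 1) * (P ^ (b * (a - 1 - k)) * (γ * aeval d h + α ^ k * s1)) ∈ Algebra.adjoin R {d} := by
      refine ih (k + 1) (by omega) _ ?_
      have hPm : P ^ (b * (a - 1 - k)) ∈ WW P N ^ (b * (a - 1 - k)) := Ideal.pow_mem_pow (P_mem P N) _
      have h3 : γ * aeval d h + α ^ k * s1 ∈ WW P N ^ ((b - 1) * k - 1) := by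
        refine Ideal.add_mem _ (Ideal.mul_mem_right _ _ hγ) (Ideal.mul_mem_right _ _ ?_)
        have := Ideal.pow_mem_pow hαm k
        rw [← pow_mul] at this
        exact Ideal.pow_le_pow_right (by omega) this
      have h4 := Ideal.mul_mem_mul hPm h3
      rw [← pow_add] at h4
      exact Ideal.pow_le_pow_right (by omega) h4
    have hfin : N ^ k * (P ^ (b * (a - 1) - k) * aeval P f) =
        (p : S) ^ (a - 1 - k) * (d ^ b - (p : S)) ^ k * aeval d h -
        N ^ (k + 1) * (P ^ (b * (a - 1 - k)) * (γ * aeval d h + α ^ k * s1)) := by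
      have e1 : d ^ b - (p : S) = N * (α + N * u') := by rw [← hP]; exact hu
      have e2 : (p : S) ^ (a - 1 - k) = P ^ (b * (a - 1 - k)) := by rw [pow_mul, hP]
      have e3 : P ^ (b * (a - 1) - k) = P ^ (b * (a - 1 - k)) * (P ^ (b - 1)) ^ k := by
        rw [← pow_mul, ← pow_add]; congr 1; omega
      have e4 : α ^ k = ((b : S) * (1 + P)) ^ k * (P ^ (b - 1)) ^ k := by rw [hα, mul_pow]
      rw [e1, e2, mul_pow, hγe, e3, ← hval, hs1, e4]
      ring
    rw [hfin]
    exact Subalgebra.sub_mem _ hF hG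

/-- **Ring lemma.** -/
theorem ring_lemma (P N : S) (p a b : ℕ) (hb : 1 ≤ b) (hN : N ^ a = 0) (hP : P ^ b = (p : S))
    (hbu : IsUnit (b : R)) (hnil : IsNilpotent P) (htop : Algebra.adjoin R {P, N} = ⊤) (s : S) :
    (p : S) ^ (a - 1) * s ∈ Algebra.adjoin R {P + N * (1 + P)} := by
  have h := main_step P N p a b hb hN hP hbu hnil htop a 0 (by omega) ((p : S) ^ (a - 1) * s) ?_
  · rwa [pow_zero, one_mul] at h
  · rw [Nat.sub_zero, ← hP, ← pow_mul]
    exact Ideal.mul_mem_right _ _ (Ideal.pow_mem_pow (P_mem P N) _)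

end rng

end Pool.Agent.Helper33RWB
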