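import Mathlib
import Pool.Agent.Helper33_RWB.Rng

/-! The ring lemma for commuting endomorphisms of a cyclic module. -/

namespace Pool.Agent.Helper33RWB

open Polynomial
open scoped IsMulCommutative

section endl
variable {R M : Type*} [CommRing R] [AddCommGroup M] [Module R M]

theorem end_lemma (P N : Module.End R M) (hcomm : P * N = N * P) (p a b : ℕ) (hb : 1 ≤ b) (hN : N ^ a = 0)
    (hP : P ^ b = (p : Module.End R M)) (hbu : IsUnit (b : R)) (hnil : IsNilpotent P) (Y : M)
    (hcyc : ∀ Z : M, ∃ s ∈ Algebra.adjoin R ({P, N} : Set (Module.End R M)), s Y = Z) (Z : M) :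
    ∃ h : R[X], (p : R) ^ (a - 1) • Z = aeval (P + N * (1 + P)) h Y := by
  have hc : ∀ x ∈ ({P, N} : Set (Module.End R M)), ∀ y ∈ ({P, N} : Set (Module.End R M)), x * y = y * x := by
    intro x hx y hy
    rcases hx with rfl | hx
    · rcases hy with rfl | hy
      · rfl
      · rw [Set.mem_singleton_iff] at hy; rw [hy]; exact hcomm
    · rw [Set.mem_singleton_iff] at hx
      rcases hy with rfl | hy
      · rw [hx]; exact hcomm.symm
      · rw [Set.mem_singleton_iff] at hy; rw [hx, hy]
  have := Algebra.isMulCommutative_adjoin R hc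
  let S := Algebra.adjoin R ({P, N} : Set (Module.End R M))
  let P' : S := ⟨P, Algebra.subset_adjoin (by simp)⟩
  let N' : S := ⟨N, Algebra.subset_adjoin (by simp)⟩
  have htop : Algebra.adjoin R ({P', N'} : Set S) = ⊤ := by
    have h1 := Algebra.adjoin_adjoin_coe_preimage (R := R) (s := ({P, N} : Set (Module.End R M)))
    rw [← h1]
    congr 1
    ext z
    simp only [Set.mem_insert_iff, Set.mem_singleton_iff, Set.mem_preimage]
    constructor
    · rintro (rfl | rfl)
      · exact Or.inl rfl
      · exact Or.inr rfl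
    · rintro (h | h)
      · exact Or.inl (Subtype.ext h)
      · exact Or.inr (Subtype.ext h)
  obtain ⟨s, hs, hsZ⟩ := hcyc Z
  have key := ring_lemma (R := R) (S := S) P' N' p a b hb (Subtype.ext (by simpa using hN))
    (Subtype.ext (by simpa using hP)) hbu ?_ htop ⟨s, hs⟩
  · rw [Algebra.adjoin_singleton_eq_range_aeval] at key
    obtain ⟨h, hh⟩ := key
    refine ⟨h, ?_⟩
    have h2 := congrArg (fun z : S => (z : Module.End R M)) hh
    have h3 : ((aeval (P' + N' * (1 + P')) h : S) : Module.End R M) = aeval (P + N * (1 + P)) h := by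
      have := Polynomial.aeval_algHom_apply S.val (P' + N' * (1 + P')) h
      exact this.symm
    have h4 : aeval (P + N * (1 + P)) h = (p : Module.End R M) ^ (a - 1) * s := by
      rw [← h3]
      exact h2
    rw [h4, Module.End.mul_apply, hsZ]
    have h5 : (p : Module.End R M) ^ (a - 1) = algebraMap R (Module.End R M) ((p : R) ^ (a - 1)) := by
      rw [map_pow, map_natCast]
    rw [h5]
    rfl
  · obtain ⟨k, hk⟩ := hnil
    exact ⟨k, Subtype.ext (by simpa using hk)⟩

end endl

end Pool.Agent.Helper33RWB
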