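import Mathlib

/-! The matrices: `NA` (nilpotent Jordan block, left multiplication) and `PB` (companion matrix of
`X^b - q`, right multiplication) on `a × b` matrices. -/

namespace Pool.Agent.Helper33RWB

open Matrix

section mat
variable (R : Type*) [CommRing R]

/-- nilpotent Jordan block -/
def NA (a : ℕ) : Matrix (Fin a) (Fin a) R := fun i j => if j.val = i.val + 1 then 1 else 0

/-- companion matrix of `X^b - q` -/
def PB (q : R) (b : ℕ) : Matrix (Fin b) (Fin b) R := fun i j =>
  if j.val = i.val + 1 then 1 else if i.val + 1 = b ∧ j.val = 0 then q else 0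

/-- elementary matrix with entry `c` at `(i, j)` (natural indices) -/
def EM (a b : ℕ) (c : R) (i j : ℕ) : Matrix (Fin a) (Fin b) R := fun k l => if k.val = i ∧ l.val = j then c else 0

variable {R}

theorem NA_mul_EM (a b : ℕ) (c : R) (i j : ℕ) (hi : i + 1 < a) : NA R a * EM R a b c (i + 1) j = EM R a b c i j := by
  ext k l
  rw [Matrix.mul_apply, Finset.sum_eq_single ⟨i + 1, hi⟩]
  · simp only [NA, EM]
    by_cases h1 : k.val = i
    · by_cases h2 : l.val = j <;> simp [h1, h2]
    · have : ¬ (i = k.val) := by omega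
      simp [h1, this]
  · intro s _ hs
    have : s.val ≠ i + 1 := fun h => hs (Fin.ext h)
    simp [EM, this]
  · intro h; exact absurd (Finset.mem_univ _) h

theorem EM_mul_PB (a b : ℕ) (q c : R) (i j : ℕ) (hj : j + 1 < b) : EM R a b c i j * PB R q b = EM R a b c i (j + 1) := by
  ext k l
  rw [Matrix.mul_apply, Finset.sum_eq_single ⟨j, by omega⟩]
  · simp only [PB, EM]
    by_cases h1 : k.val = i
    · by_cases h2 : l.val = j + 1
      · simp [h1, h2]
      · have : ¬ (j + 1 = b) := by omega
        simp [h1, h2, this]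
    · simp [h1]
  · intro s _ hs
    have : s.val ≠ j := fun h => hs (Fin.ext h)
    simp [EM, this]
  · intro h; exact absurd (Finset.mem_univ _) h

theorem EM_mul_PB_last (a b : ℕ) (q c : R) (i : ℕ) (hb : 0 < b) : EM R a b c i (b - 1) * PB R q b = EM R a b (c * q) i 0 := by
  ext k l
  rw [Matrix.mul_apply, Finset.sum_eq_single ⟨b - 1, by omega⟩]
  · simp only [PB, EM]
    have hl := l.isLt
    by_cases h1 : k.val = i
    · by_cases h2 : l.val = 0
      · have h3 : ¬ (0 = b) := by omega
        have h4 : b - 1 + 1 = b := by omega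
        simp [h1, h2, h4, h3]
      · have h3 : ¬ (l.val = b - 1 + 1) := by omega
        simp [h1, h2, h3]
    · simp [h1]
  · intro s _ hs
    have : s.val ≠ b - 1 := fun h => hs (Fin.ext h)
    simp [EM, this]
  · intro h; exact absurd (Finset.mem_univ _) h

theorem sum_EM (a b : ℕ) (Z : Matrix (Fin a) (Fin b) R) : Z = ∑ i : Fin a, ∑ j : Fin b, EM R a b (Z i j) i j := by
  ext k l
  rw [Matrix.sum_apply, Finset.sum_eq_single k]
  · rw [Matrix.sum_apply, Finset.sum_eq_single l]
    · simp [EM]
    · intro s _ hs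
      have : l.val ≠ s.val := fun h => hs (Fin.ext h.symm)
      simp [EM, this]
    · intro h; exact absurd (Finset.mem_univ _) h
  · intro s _ hs
    rw [Matrix.sum_apply]
    have : k.val ≠ s.val := fun h => hs (Fin.ext h.symm)
    simp [EM, this]
  · intro h; exact absurd (Finset.mem_univ _) h

theorem NA_pow_entry (a k : ℕ) (i j : Fin a) : (NA R a ^ k) i j = if j.val = i.val + k then 1 else 0 := by
  induction k generalizing i j with
  | zero =>
    rw [pow_zero, Matrix.one_apply, add_zero]
    by_cases h : i = j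
    · simp [h]
    · have : ¬ (j.val = i.val) := fun h' => h (Fin.ext h'.symm)
      simp [h, this]
  | succ k ih =>
    rw [pow_succ', Matrix.mul_apply]
    by_cases h : i.val + 1 < a
    · rw [Finset.sum_eq_single ⟨i.val + 1, h⟩]
      · rw [ih]
        simp only [NA]
        rw [if_pos trivial, one_mul]
        congr 1
        apply propext
        constructor <;> intro h' <;> omega
      · intro s _ hs
        have : s.val ≠ i.val + 1 := fun h => hs (Fin.ext h)
        simp [NA, this]
      · intro h; exact absurd (Finset.mem_univ _) h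
    · rw [Finset.sum_eq_zero]
      · have := j.isLt
        rw [if_neg (by omega)]
      · intro s _
        have := s.isLt
        have : s.val ≠ i.val + 1 := by omega
        simp [NA, this]

theorem NA_pow (a : ℕ) : NA R a ^ a = 0 := by
  ext i j
  rw [NA_pow_entry]
  have := j.isLt
  rw [if_neg (by omega)]
  rfl

/-- left multiplication by `NA` -/
def LN (R : Type*) [CommRing R] (a b : ℕ) : Module.End R (Matrix (Fin a) (Fin b) R) where
  toFun Z := NA R a * Z
  map_add' := Matrix.mul_add _
  map_smul' c Z := by simp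

/-- right multiplication by `PB` -/
def RP {R : Type*} [CommRing R] (q : R) (a b : ℕ) : Module.End R (Matrix (Fin a) (Fin b) R) where
  toFun Z := Z * PB R q b
  map_add' := fun Y Z => Matrix.add_mul Y Z _
  map_smul' c Z := by simp

theorem LN_apply (a b : ℕ) (Z : Matrix (Fin a) (Fin b) R) : LN R a b Z = NA R a * Z := rfl
theorem RP_apply (q : R) (a b : ℕ) (Z : Matrix (Fin a) (Fin b) R) : RP q a b Z = Z * PB R q b := rfl

theorem RP_LN_comm (q : R) (a b : ℕ) : RP q a b * LN R a b = LN R a b * RP q a b := by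
  ext1 Z
  rw [Module.End.mul_apply, Module.End.mul_apply, RP_apply, LN_apply, LN_apply, RP_apply, Matrix.mul_assoc]

theorem LN_pow_apply (a b k : ℕ) (Z : Matrix (Fin a) (Fin b) R) : (LN R a b ^ k) Z = NA R a ^ k * Z := by
  induction k with
  | zero => simp
  | succ k ih => rw [pow_succ', Module.End.mul_apply, ih, LN_apply, pow_succ', Matrix.mul_assoc]

theorem LN_pow (a b : ℕ) : LN R a b ^ a = 0 := by
  ext1 Z
  rw [LN_pow_apply, NA_pow, Matrix.zero_mul]
  rfl

theorem RP_pow_EM (q : R) (a b : ℕ) (c : R) (i j k : ℕ) (h : j + k < b) :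
    (RP q a b ^ k) (EM R a b c i j) = EM R a b c i (j + k) := by
  induction k with
  | zero => simp
  | succ k ih => rw [pow_succ', Module.End.mul_apply, ih (by omega), RP_apply, EM_mul_PB _ _ _ _ _ _ (by omega), add_assoc]

theorem RP_pow_b_EM (q : R) (a b : ℕ) (hb : 0 < b) (c : R) (i j : ℕ) (hj : j < b) :
    (RP q a b ^ b) (EM R a b c i j) = EM R a b (c * q) i j := by
  have e : b = j + (1 + (b - 1 - j)) := by omega
  have h1 : RP q a b ^ b = RP q a b ^ j * (RP q a b * RP q a b ^ (b - 1 - j)) := by
    rw [← pow_succ', ← pow_add]; congr 1; omega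
  rw [h1, Module.End.mul_apply, Module.End.mul_apply, RP_pow_EM q a b c i j (b - 1 - j) (by omega),
    show j + (b - 1 - j) = b - 1 by omega, RP_apply, EM_mul_PB_last _ _ _ _ _ hb,
    RP_pow_EM q a b (c * q) i 0 j (by omega), zero_add]

theorem RP_pow (p a b : ℕ) (hb : 0 < b) : RP (p : R) a b ^ b = (p : Module.End R (Matrix (Fin a) (Fin b) R)) := by
  ext1 Z
  have h5 : ((p : Module.End R (Matrix (Fin a) (Fin b) R))) Z = (p : R) • Z := by
    rw [← map_natCast (algebraMap R (Module.End R (Matrix (Fin a) (Fin b) R))) p]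
    rfl
  rw [h5]
  conv_lhs => rw [sum_EM a b Z]
  conv_rhs => rw [sum_EM a b Z]
  rw [map_sum, Finset.smul_sum]
  refine Finset.sum_congr rfl fun i _ => ?_
  rw [map_sum, Finset.smul_sum]
  refine Finset.sum_congr rfl fun j _ => ?_
  rw [RP_pow_b_EM _ _ _ hb _ _ _ j.isLt]
  ext k l
  simp only [EM, Matrix.smul_apply, smul_eq_mul]
  split_ifs
  · ring
  · rw [mul_zero]

/-- the module of `a × b` matrices is cyclic, generated by `E_(a-1, 0)` -/
theorem cyclic (q : R) (a b : ℕ) (Z : Matrix (Fin a) (Fin b) R) :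
    ∃ s ∈ Algebra.adjoin R ({RP q a b, LN R a b} : Set (Module.End R (Matrix (Fin a) (Fin b) R))),
      s (EM R a b 1 (a - 1) 0) = Z := by
  have hR : RP q a b ∈ Algebra.adjoin R ({RP q a b, LN R a b} : Set (Module.End R (Matrix (Fin a) (Fin b) R))) :=
    Algebra.subset_adjoin (by simp)
  have hL : LN R a b ∈ Algebra.adjoin R ({RP q a b, LN R a b} : Set (Module.End R (Matrix (Fin a) (Fin b) R))) :=
    Algebra.subset_adjoin (by simp)
  have hLE : ∀ k i : ℕ, ∀ c : R, ∀ j, i + k < a → (LN R a b ^ k) (EM R a b c (i + k) j) = EM R a b c i j := by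
    intro k
    induction k with
    | zero => intro i c j _; simp
    | succ k ih =>
      intro i c j h
      rw [pow_succ, Module.End.mul_apply, ← add_assoc, LN_apply, NA_mul_EM _ _ _ _ _ (by omega), ih i c j (by omega)]
  refine ⟨∑ i : Fin a, ∑ j : Fin b, algebraMap R _ (Z i j) * (LN R a b ^ (a - 1 - i.val) * RP q a b ^ j.val), ?_, ?_⟩
  · refine Subalgebra.sum_mem _ fun i _ => Subalgebra.sum_mem _ fun j _ => ?_
    exact Subalgebra.mul_mem _ (Subalgebra.algebraMap_mem _ _)
      (Subalgebra.mul_mem _ (Subalgebra.pow_mem _ hL _) (Subalgebra.pow_mem _ hR _))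
  · conv_rhs => rw [sum_EM a b Z]
    rw [LinearMap.sum_apply]
    refine Finset.sum_congr rfl fun i _ => ?_
    rw [LinearMap.sum_apply]
    refine Finset.sum_congr rfl fun j _ => ?_
    have hi := i.isLt
    have hj := j.isLt
    rw [Module.End.mul_apply, Module.End.mul_apply, RP_pow_EM q a b 1 (a - 1) 0 j.val (by omega), zero_add]
    have h1 := hLE (a - 1 - i.val) i.val 1 j.val (by omega)
    rw [show i.val + (a - 1 - i.val) = a - 1 by omega] at h1
    rw [h1]
    change (Z i j) • EM R a b 1 i.val j.val = _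
    ext k l
    simp only [EM, Matrix.smul_apply, smul_eq_mul]
    split_ifs
    · rw [mul_one]
    · rw [mul_zero]

end mat

end Pool.Agent.Helper33RWB
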