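import Mathlib
import Pool.Agent.Helper24_Reg.Alg
import Pool.Agent.Helper24_Reg.Basic

/-! Metabelian pairs, abstract form: `u : M → G` is additive-to-multiplicative, and conjugation by
`x` acts on `u M` through a linear map `c`.  Hall's condition for `x`, `u Y` gives a polynomial
relation. -/

namespace Pool.Agent.Helper33RWB

open Finset Polynomial Pool.Agent.Helper24Reg
open scoped commutatorElement

section met
variable {R M G : Type*} [CommRing R] [AddCommGroup M] [Module R M] [Group G]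

theorem u_zero (u : M → G) (hua : ∀ a b, u (a + b) = u a * u b) : u 0 = 1 := by
  have := hua 0 0
  rw [add_zero] at this
  exact (left_eq_mul.1 this)

theorem u_neg (u : M → G) (hua : ∀ a b, u (a + b) = u a * u b) (a : M) : u (-a) = (u a)⁻¹ := by
  rw [eq_inv_iff_mul_eq_one, ← hua, neg_add_cancel, u_zero u hua]

theorem u_nsmul (u : M → G) (hua : ∀ a b, u (a + b) = u a * u b) (a : M) (k : ℕ) : u (k • a) = u a ^ k := by
  induction k with
  | zero => rw [zero_smul, pow_zero, u_zero u hua]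
  | succ k ih => rw [succ_nsmul, hua, ih, pow_succ]

/-- the values of `u` on the elements `D f(D) Y`, `D = c - 1` -/
def KK (u : M → G) (hua : ∀ a b, u (a + b) = u a * u b) (c : Module.End R M) (Y : M) : Subgroup G where
  carrier := {h | ∃ f : R[X], h = u (aeval (c - 1) (X * f) Y)}
  mul_mem' := by
    rintro _ _ ⟨f, rfl⟩ ⟨g, rfl⟩
    exact ⟨f + g, by rw [← hua, mul_add, map_add, LinearMap.add_apply]⟩
  one_mem' := ⟨0, by rw [mul_zero, map_zero, LinearMap.zero_apply, u_zero u hua]⟩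
  inv_mem' := by
    rintro _ ⟨f, rfl⟩
    refine ⟨-f, ?_⟩
    rw [← u_neg u hua, mul_neg, map_neg, LinearMap.neg_apply]

theorem x_mul_u_pow (u : M → G) (hua : ∀ a b, u (a + b) = u a * u b) (x : G) (c : Module.End R M)
    (hc : ∀ z : M, x⁻¹ * u z * x = u (c z)) (Y : M) (t : ℕ) :
    (x * u Y) ^ t = x ^ t * u ((∑ k ∈ range t, c ^ k) Y) := by
  induction t with
  | zero => rw [pow_zero, pow_zero, one_mul, range_zero, sum_empty, LinearMap.zero_apply, u_zero u hua]
  | succ t ih =>
    rw [pow_succ, ih]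
    have e : x ^ t * u ((∑ k ∈ range t, c ^ k) Y) * (x * u Y) =
        x ^ (t + 1) * ((x⁻¹ * u ((∑ k ∈ range t, c ^ k) Y) * x) * u Y) := by
      rw [pow_succ]; group
    rw [e, hc, ← hua]
    congr 2
    rw [Finset.sum_range_succ', pow_zero, LinearMap.add_apply, Module.End.one_apply]
    congr 1
    rw [← Module.End.mul_apply, Finset.mul_sum]
    simp only [pow_succ']

theorem prod_pow_KK' (u : M → G) (hua : ∀ a b, u (a + b) = u a * u b) (c : Module.End R M) (Y : M) (p : ℕ)
    (l : List G) (hl : ∀ d ∈ l, d ∈ KK u hua c Y) :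
    ∃ f : R[X], (l.map (fun d => d ^ p)).prod = u ((p : R) • aeval (c - 1) (X * f) Y) := by
  induction l with
  | nil =>
    refine ⟨0, ?_⟩
    rw [mul_zero, map_zero, LinearMap.zero_apply, smul_zero, u_zero u hua]; rfl
  | cons d l ih =>
    obtain ⟨f, hf⟩ := ih fun c hc => hl c (List.mem_cons_of_mem _ hc)
    obtain ⟨g, rfl⟩ := hl d List.mem_cons_self
    refine ⟨g + f, ?_⟩
    rw [List.map_cons, List.prod_cons, hf, ← u_nsmul u hua, ← hua, mul_add, map_add,
      LinearMap.add_apply, smul_add, Nat.cast_smul_eq_nsmul, Nat.cast_smul_eq_nsmul]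

/-- The polynomial extracted from Hall's condition. -/
theorem regPair_poly_abs [Finite G] (p : ℕ) [hp : Fact p.Prime] (u : M → G)
    (hua : ∀ a b, u (a + b) = u a * u b)
    (hu : Function.Injective u) (x : G) (c : Module.End R M)
    (hc : ∀ z : M, x⁻¹ * u z * x = u (c z)) (Y : M)
    (h : RegPair p x (u Y)) :
    ∃ g : R[X], aeval (c - 1) (X ^ (p - 1) + C (p : R) * (X * g)) Y = 0 := by
  obtain ⟨l, hl, he⟩ := h
  have hKx : ∀ k ∈ KK u hua c Y, x⁻¹ * k * x ∈ KK u hua c Y := by
    rintro _ ⟨f, rfl⟩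
    refine ⟨(X + 1) * f, ?_⟩
    rw [hc]
    congr 1
    rw [show (X : R[X]) * ((X + 1) * f) = (X + 1) * (X * f) by ring,
      map_mul (aeval (c - 1)) (X + 1) (X * f), map_add, aeval_X, map_one, Module.End.mul_apply, sub_add_cancel]
  have hKy : ∀ (A : M), ∀ k ∈ KK u hua c Y, u A * k * (u A)⁻¹ ∈ KK u hua c Y := by
    rintro A _ ⟨f, rfl⟩
    refine ⟨f, ?_⟩
    rw [← u_neg u hua, ← hua, ← hua]
    congr 1
    abel
  have hKy' : ∀ k ∈ KK u hua c Y, (u Y)⁻¹ * k * u Y ∈ KK u hua c Y := by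
    intro k hk
    have := hKy (-Y) k hk
    rwa [u_neg u hua, inv_inv] at this
  have hKx' := conj_mem_of_finite _ x hKx
  have hcomm0 : (u Y)⁻¹ * (x⁻¹ * u Y * x) ∈ KK u hua c Y := by
    refine ⟨1, ?_⟩
    rw [hc, ← u_neg u hua, ← hua, mul_one, aeval_X, LinearMap.sub_apply, Module.End.one_apply]
    congr 1
    abel
  have hcomm : ⁅x, u Y⁆ ∈ KK u hua c Y := by
    have h4 := (KK u hua c Y).inv_mem (hKx' _ (hKy Y _ hcomm0))
    have e : (x * (u Y * ((u Y)⁻¹ * (x⁻¹ * u Y * x)) * (u Y)⁻¹) * x⁻¹)⁻¹ = ⁅x, u Y⁆ := by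
      rw [commutatorElement_def]; group
    rw [e] at h4
    exact h4
  have hle := commutator_closure_le (KK u hua c Y) x (u Y) hKx hKx' hKy' (hKy Y) hcomm
  obtain ⟨f, hf⟩ := prod_pow_KK' u hua c Y p l (fun c hc => hle (hl c hc))
  rw [hf, x_mul_u_pow u hua x c hc, ← u_nsmul u hua, mul_assoc, ← hua, mul_right_inj] at he
  have h1 : (∑ k ∈ range p, c ^ k) Y = p • Y + (p : R) • aeval (c - 1) (X * f) Y := hu he
  -- binomial expansion
  have hcc : ∀ t ∈ Ico 1 (p - 1), ∃ d : ℕ, p.choose (t + 1) = p * d := by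
    intro t ht
    rw [Finset.mem_Ico] at ht
    exact hp.out.dvd_choose_self (by omega) (by omega)
  choose! d hd using hcc
  set k0 : R[X] := ∑ t ∈ Ico 1 (p - 1), C (d t : R) * X ^ (t - 1) with hk0
  have hsum : (∑ k ∈ range p, c ^ k) = aeval (c - 1) (C (p : R) + C (p : R) * (X * k0) + X ^ (p - 1)) := by
    have h1 : (∑ k ∈ range p, (X + 1 : R[X]) ^ k) = C (p : R) + C (p : R) * (X * k0) + X ^ (p - 1) := by
      rw [geom_sum_conj (X + 1 : R[X]) p, add_sub_cancel_right]
      have hp2 := hp.out.two_le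
      have h2 : ∑ k ∈ range p, (p.choose (k + 1) : R[X]) * X ^ k =
          (∑ k ∈ range (p - 1), (p.choose (k + 1) : R[X]) * X ^ k) + X ^ (p - 1) := by
        have : range p = range (p - 1 + 1) := by congr 1; omega
        rw [this, Finset.sum_range_succ, Nat.sub_add_cancel (by omega), Nat.choose_self, Nat.cast_one, one_mul]
      rw [h2, add_left_inj, Finset.range_eq_Ico, Finset.sum_eq_sum_Ico_succ_bot (by omega)]
      congr 1
      · rw [zero_add, Nat.choose_one_right, pow_zero, mul_one, C_eq_natCast]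
      · rw [hk0, Finset.mul_sum, Finset.mul_sum]
        refine Finset.sum_congr rfl fun t ht => ?_
        rw [hd t ht]
        rw [Finset.mem_Ico] at ht
        obtain ⟨t', rfl⟩ : ∃ t', t = t' + 1 := ⟨t - 1, by omega⟩
        simp only [Nat.add_sub_cancel, Nat.cast_mul, C_eq_natCast]
        ring
    rw [← h1, map_sum]
    refine Finset.sum_congr rfl fun k _ => ?_
    rw [map_pow, map_add, aeval_X, map_one, sub_add_cancel]
  refine ⟨k0 - f, ?_⟩
  have h3 : aeval (c - 1) (X ^ (p - 1) + C (p : R) * (X * (k0 - f))) Y =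
      (∑ k ∈ range p, c ^ k) Y - ((p : R) • Y + (p : R) • aeval (c - 1) (X * f) Y) := by
    rw [hsum]
    have h4 : (X ^ (p - 1) + C (p : R) * (X * (k0 - f)) : R[X]) =
        (C (p : R) + C (p : R) * (X * k0) + X ^ (p - 1)) - (C (p : R) + C (p : R) * (X * f)) := by ring
    rw [h4, map_sub, LinearMap.sub_apply]
    congr 1
    rw [map_add, LinearMap.add_apply, map_mul, aeval_C, Module.End.mul_apply]
    rfl
  rw [h3, h1]
  simp only [Nat.cast_smul_eq_nsmul, sub_self]

end met

end Pool.Agent.Helper33RWB
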