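import Mathlib
import Pool.Agent.Helper24_Reg.Irr2
import Pool.Agent.Helper33_RWB.Met
import Pool.Agent.Helper33_RWB.Cnt
import Pool.Agent.Helper33_RWB.EndL
import Pool.Agent.Helper33_RWB.Mat

/-! Block triangular pairs: `P_n(ℤ/p^m)` is irregular when `p ≤ a (n - a)` for some `a ≤ m`. -/

namespace Pool.Agent.Helper33RWB

open Matrix Polynomial Pool.Agent.Helper24Reg

section blocks
variable {R : Type*} [CommRing R]

/-- block matrix with `Fin (a + b)` indices -/
def BM (a b : ℕ) (A : Matrix (Fin a) (Fin a) R) (Z : Matrix (Fin a) (Fin b) R) (B : Matrix (Fin b) (Fin b) R) :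
    Matrix (Fin (a + b)) (Fin (a + b)) R :=
  Matrix.reindex finSumFinEquiv finSumFinEquiv (fromBlocks A Z 0 B)

theorem PCond_BM (q : R) (a b : ℕ) (A : Matrix (Fin a) (Fin a) R) (Z : Matrix (Fin a) (Fin b) R)
    (B : Matrix (Fin b) (Fin b) R) (hA : PCond q A) (hB : PCond q B) : PCond q (BM a b A Z B) := by
  refine ⟨fun i => ?_, fun i j hij => ?_⟩
  · refine Fin.addCases (fun i' => ?_) (fun i' => ?_) i
    · simpa [BM] using hA.1 i'
    · simpa [BM] using hB.1 i'
  · revert hij
    refine Fin.addCases (fun i' => ?_) (fun i' => ?_) i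
    · refine Fin.addCases (fun j' hij => ?_) (fun j' hij => ?_) j
      · have : j' < i' := by
          rw [Fin.lt_def] at hij ⊢
          simpa using hij
        simpa [BM] using hA.2 i' j' this
      · exfalso
        have h1 : (Fin.natAdd a j').val < (Fin.castAdd b i').val := hij
        have := i'.isLt
        simp only [Fin.val_natAdd, Fin.val_castAdd] at h1
        omega
    · refine Fin.addCases (fun j' hij => ?_) (fun j' hij => ?_) j
      · simp [BM]
      · have : j' < i' := by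
          have h1 : (Fin.natAdd a j').val < (Fin.natAdd a i').val := hij
          simp only [Fin.val_natAdd] at h1
          rw [Fin.lt_def]
          omega
        simpa [BM] using hB.2 i' j' this

theorem PCond_NA (q : R) (a : ℕ) : PCond q (1 + NA R a) := by
  refine ⟨fun i => ?_, fun i j hij => ?_⟩
  · rw [Matrix.add_apply, Matrix.one_apply_eq, add_sub_cancel_left]
    simp [NA]
  · rw [Matrix.add_apply, Matrix.one_apply_ne (ne_of_gt hij), zero_add]
    have : j.val < i.val := hij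
    have h2 : ¬ (j.val = i.val + 1) := by omega
    simp [NA, h2]

theorem PCond_PB (q : R) (b : ℕ) : PCond q (1 + PB R q b) := by
  refine ⟨fun i => ?_, fun i j hij => ?_⟩
  · rw [Matrix.add_apply, Matrix.one_apply_eq, add_sub_cancel_left]
    simp only [PB]
    rw [if_neg (by omega)]
    split_ifs
    · exact dvd_rfl
    · exact dvd_zero _
  · rw [Matrix.add_apply, Matrix.one_apply_ne (ne_of_gt hij), zero_add]
    have : j.val < i.val := hij
    simp only [PB]
    rw [if_neg (by omega)]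
    split_ifs
    · exact dvd_rfl
    · exact dvd_zero _

/-- the embedding of the matrices as a unipotent radical -/
def uM (a b : ℕ) (Z : Matrix (Fin a) (Fin b) R) : (Matrix (Fin a ⊕ Fin b) (Fin a ⊕ Fin b) R)ˣ where
  val := fromBlocks 1 Z 0 1
  inv := fromBlocks 1 (-Z) 0 1
  val_inv := by
    rw [fromBlocks_multiply]
    simp
  inv_val := by
    rw [fromBlocks_multiply]
    simp

theorem uM_add (a b : ℕ) (Z W : Matrix (Fin a) (Fin b) R) : uM a b (Z + W) = uM a b Z * uM a b W := by
  apply Units.ext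
  rw [Units.val_mul]
  change fromBlocks 1 (Z + W) 0 1 = fromBlocks 1 Z 0 1 * fromBlocks 1 W 0 1
  rw [fromBlocks_multiply]
  simp [add_comm]

theorem uM_inj (a b : ℕ) : Function.Injective (uM (R := R) a b) := by
  intro Z W h
  have h1 : fromBlocks 1 Z 0 1 = fromBlocks 1 W 0 (1 : Matrix (Fin b) (Fin b) R) := congrArg Units.val h
  have h2 := congrArg Matrix.toBlocks₁₂ h1
  rwa [toBlocks_fromBlocks₁₂, toBlocks_fromBlocks₁₂] at h2

theorem conj_uM (a b : ℕ) (A : Matrix (Fin a) (Fin a) R) (B : Matrix (Fin b) (Fin b) R)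
    (gA gB : (Matrix (Fin a ⊕ Fin b) (Fin a ⊕ Fin b) R)ˣ) (hA : gA.1 = fromBlocks A 0 0 1)
    (hB : gB.1 = fromBlocks 1 0 0 B) (Z : Matrix (Fin a) (Fin b) R) :
    (gA⁻¹ * gB)⁻¹ * uM a b Z * (gA⁻¹ * gB) = uM a b (A * Z * B) := by
  have h1 : gA * uM a b Z = uM a b (A * Z) * gA := by
    apply Units.ext
    rw [Units.val_mul, Units.val_mul, hA]
    change fromBlocks A 0 0 1 * fromBlocks 1 Z 0 1 = fromBlocks 1 (A * Z) 0 1 * fromBlocks A 0 0 1
    rw [fromBlocks_multiply, fromBlocks_multiply]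
    simp
  have h2 : uM a b (A * Z) * gB = gB * uM a b (A * Z * B) := by
    apply Units.ext
    rw [Units.val_mul, Units.val_mul, hB]
    change fromBlocks 1 (A * Z) 0 1 * fromBlocks 1 0 0 B = fromBlocks 1 0 0 B * fromBlocks 1 (A * Z * B) 0 1
    rw [fromBlocks_multiply, fromBlocks_multiply]
    simp
  calc (gA⁻¹ * gB)⁻¹ * uM a b Z * (gA⁻¹ * gB) = gB⁻¹ * (gA * uM a b Z) * gA⁻¹ * gB := by group
    _ = gB⁻¹ * (uM a b (A * Z) * gB) := by rw [h1]; group
    _ = uM a b (A * Z * B) := by rw [h2]; group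

theorem map_BM {S : Type*} [CommRing S] (f : R →+* S) (a b : ℕ) (A : Matrix (Fin a) (Fin a) R)
    (Z : Matrix (Fin a) (Fin b) R) (B : Matrix (Fin b) (Fin b) R) :
    Matrix.reindex finSumFinEquiv.symm finSumFinEquiv.symm (f.mapMatrix (BM a b A Z B)) =
      fromBlocks (A.map f) (Z.map f) 0 (B.map f) := by
  ext i j
  rcases i with i | i <;> rcases j with j | j <;> simp [BM]

end blocks

section main

/-- the reduction homomorphism to block matrices over `ℤ/p^a` -/
noncomputable def redB (p m a b : ℕ) [Fact p.Prime] (ham : a ≤ m) :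
    P p m (a + b) →* (Matrix (Fin a ⊕ Fin b) (Fin a ⊕ Fin b) (ZMod (p ^ a)))ˣ :=
  (Units.map ((Matrix.reindexRingEquiv (ZMod (p ^ a)) finSumFinEquiv.symm).toRingHom.toMonoidHom)).comp
    ((Matrix.GeneralLinearGroup.map (ZMod.castHom (pow_dvd_pow p ham) (ZMod (p ^ a)))).comp (P p m (a + b)).subtype)

theorem redB_val (p m a b : ℕ) [Fact p.Prime] (ham : a ≤ m) (g : P p m (a + b)) :
    (redB p m a b ham g).1 = Matrix.reindex finSumFinEquiv.symm finSumFinEquiv.symm
      ((ZMod.castHom (pow_dvd_pow p ham) (ZMod (p ^ a))).mapMatrix g.1.1) := rfl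

theorem not_regular_block_aux (p m a b : ℕ) [hp : Fact p.Prime] (ha : 1 ≤ a) (hb : 1 ≤ b) (ham : a ≤ m)
    (hpb : ¬ p ∣ b) (hpab : p ≤ a * b) : ¬ IsRegular p (P p m (a + b)) := by
  intro hreg
  have hm : m ≠ 0 := by omega
  have hne : NeZero (p ^ a) := ⟨pow_ne_zero _ hp.out.ne_zero⟩
  let R := ZMod (p ^ a)
  let f := ZMod.castHom (pow_dvd_pow p ham) R
  -- the three elements
  have mk : ∀ X : Matrix (Fin (a + b)) (Fin (a + b)) (ZMod (p ^ m)), PCond ((p : ℕ) : ZMod (p ^ m)) X →
      ∃ g : P p m (a + b), g.1.1 = X := fun X hX => ⟨⟨(hX.isUnit hm).unit, hX⟩, rfl⟩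
  have hone : ∀ k : ℕ, PCond ((p : ℕ) : ZMod (p ^ m)) (1 : Matrix (Fin k) (Fin k) (ZMod (p ^ m))) := fun k => PCond.one
  obtain ⟨gA, hgA⟩ := mk (BM a b (1 + NA _ a) 0 1) (PCond_BM _ _ _ _ _ _ (PCond_NA _ _) (hone b))
  obtain ⟨gB, hgB⟩ := mk (BM a b 1 0 (1 + PB _ ((p : ℕ) : ZMod (p ^ m)) b))
    (PCond_BM _ _ _ _ _ _ (hone a) (PCond_PB _ _))
  obtain ⟨gY, hgY⟩ := mk (BM a b 1 (EM _ a b 1 (a - 1) 0) 1) (PCond_BM _ _ _ _ _ _ (hone a) (hone b))
  have hone' : ∀ k : ℕ, (1 : Matrix (Fin k) (Fin k) (ZMod (p ^ m))).map f = 1 := by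
    intro k
    exact (RingHom.mapMatrix f).map_one
  have h1 : (redB p m a b ham gA).1 = fromBlocks (1 + NA R a) 0 0 1 := by
    rw [redB_val, hgA, map_BM, hone']
    have e : ((1 : Matrix (Fin a) (Fin a) (ZMod (p ^ m))) + NA _ a).map f = 1 + NA R a := by
      ext i j
      simp only [Matrix.map_apply, Matrix.add_apply, map_add, NA, Matrix.one_apply]
      split_ifs <;> simp
    rw [e]
    congr 1
    ext i j
    simp
  have h2 : (redB p m a b ham gB).1 = fromBlocks 1 0 0 (1 + PB R ((p : ℕ) : R) b) := by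
    rw [redB_val, hgB, map_BM, hone']
    have e : ((1 : Matrix (Fin b) (Fin b) (ZMod (p ^ m))) + PB _ ((p : ℕ) : ZMod (p ^ m)) b).map f =
        1 + PB R ((p : ℕ) : R) b := by
      ext i j
      simp only [Matrix.map_apply, Matrix.add_apply, map_add, PB, Matrix.one_apply]
      split_ifs <;> simp
    rw [e]
    congr 1
    ext i j
    simp
  have h3 : redB p m a b ham gY = uM a b (EM R a b 1 (a - 1) 0) := by
    apply Units.ext
    rw [redB_val, hgY, map_BM, hone', hone']
    change _ = fromBlocks 1 (EM R a b 1 (a - 1) 0) 0 1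
    congr 1
    ext i j
    simp only [Matrix.map_apply, EM]
    split_ifs
    · exact map_one f
    · exact map_zero f
  have hR0 := (hreg (gA⁻¹ * gB) gY).map (redB p m a b ham)
  rw [h3, map_mul, map_inv] at hR0
  have hfin : Finite (Matrix (Fin a ⊕ Fin b) (Fin a ⊕ Fin b) R)ˣ := inferInstance
  set P0 := RP ((p : ℕ) : R) a b with hP0
  set N0 := LN R a b with hN0
  have hconj : ∀ Z : Matrix (Fin a) (Fin b) R,
      ((redB p m a b ham gA)⁻¹ * redB p m a b ham gB)⁻¹ * uM a b Z * ((redB p m a b ham gA)⁻¹ * redB p m a b ham gB) =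
        uM a b (((1 + N0) * (1 + P0)) Z) := by
    intro Z
    rw [conj_uM a b _ _ _ _ h1 h2]
    congr 1
    rw [Module.End.mul_apply, LinearMap.add_apply, LinearMap.add_apply, Module.End.one_apply, Module.End.one_apply,
      hP0, hN0, RP_apply, LN_apply]
    simp only [Matrix.add_mul, Matrix.mul_add, Matrix.one_mul, Matrix.mul_one, Matrix.mul_assoc]
    abel
  obtain ⟨g, hg⟩ := regPair_poly_abs (R := R) p (uM a b) (uM_add a b) (uM_inj a b) _ ((1 + N0) * (1 + P0)) hconj _ hR0
  · have hD : (1 + N0) * (1 + P0) - 1 = P0 + N0 * (1 + P0) := by noncomm_ring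
    rw [hD] at hg
    have hpow0 : ((p : ℕ) : R) ^ a = 0 := by
      rw [← Nat.cast_pow]; exact ZMod.natCast_self _
    have hPb : P0 ^ b = ((p : ℕ) : Module.End R (Matrix (Fin a) (Fin b) R)) := RP_pow p a b hb
    have hnil : IsNilpotent P0 := by
      refine ⟨b * a, ?_⟩
      rw [pow_mul, hPb]
      have h5 : ((p : ℕ) : Module.End R (Matrix (Fin a) (Fin b) R)) ^ a = algebraMap R _ (((p : ℕ) : R) ^ a) := by
        rw [map_pow, map_natCast]
      rw [h5, hpow0, map_zero]
    have hbu : IsUnit ((b : ℕ) : R) := by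
      rw [ZMod.isUnit_iff_coprime]
      exact Nat.Coprime.pow_right _ ((Nat.Prime.coprime_iff_not_dvd hp.out).2 hpb).symm
    have hend := end_lemma P0 N0 (RP_LN_comm _ _ _) p a b hb (LN_pow a b) hPb hbu hnil
      (EM R a b 1 (a - 1) 0) (cyclic _ a b)
    have hval : ∀ c : R, ∃ n : ℕ, ∃ c' : R, c = (n : R) + ((p : ℕ) : R) * c' := by
      intro c
      refine ⟨c.val, 0, ?_⟩
      rw [mul_zero, add_zero]
      exact (ZMod.natCast_zmod_val c).symm
    have hcnt := count_lemma (R := R) p (p - 1) hp.out.pos hval (P0 + N0 * (1 + P0)) (EM R a b 1 (a - 1) 0) g hg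
      (T := Fin a → Fin b → Fin p)
      (fun w => ((p : ℕ) : R) ^ (a - 1) • (Matrix.of fun i j => (((w i j).val : ℕ) : R))) ?_ ?_ ?_
    · rw [Nat.card_fun, Nat.card_fun, Nat.card_fin, Nat.card_fin, Nat.card_fin, ← pow_mul] at hcnt
      have := (Nat.pow_le_pow_iff_right hp.out.one_lt).1 hcnt
      have h6 := hp.out.pos
      rw [mul_comm] at this
      omega
    · intro w v hwv
      funext i j
      have h7 := congrFun (congrFun hwv i) j
      simp only [Matrix.smul_apply, Matrix.of_apply, smul_eq_mul] at h7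
      rw [← Nat.cast_pow, ← Nat.cast_mul, ← Nat.cast_mul, ZMod.natCast_eq_natCast_iff] at h7
      have h8 : p ^ a = p ^ (a - 1) * p := by rw [← pow_succ, Nat.sub_add_cancel ha]
      rw [h8] at h7
      have h9 := Nat.ModEq.mul_left_cancel' (pow_ne_zero (a - 1) hp.out.ne_zero) h7
      apply Fin.ext
      exact Nat.ModEq.eq_of_lt_of_lt h9 (w i j).isLt (v i j).isLt
    · intro w
      rw [smul_smul, ← pow_succ', Nat.sub_add_cancel ha, hpow0, zero_smul]
    · intro w
      exact hend _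
/-- **Block triangular pairs.** For `m ≥ 3`, `a ≤ m` and `p ≤ a (n - a)` the group is not regular. -/
theorem not_regular_block (p m n a : ℕ) [hp : Fact p.Prime] (hm : 3 ≤ m) (ham : a ≤ m)
    (hpan : p ≤ a * (n - a)) : ¬ IsRegular p (P p m n) := by
  have hp2 := hp.out.two_le
  have ha : 1 ≤ a := by
    rcases Nat.eq_zero_or_pos a with rfl | h
    · rw [zero_mul] at hpan; omega
    · exact h
  have hn : a < n := by
    by_contra h
    rw [Nat.sub_eq_zero_of_le (by omega), mul_zero] at hpan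
    omega
  by_cases hpb : p ∣ (n - a)
  · have := Nat.le_of_dvd (by omega) hpb
    exact not_regular_of_le p m n hm (by omega)
  · have h := not_regular_block_aux p m a (n - a) ha (by omega) ham hpb hpan
    rwa [Nat.add_sub_cancel' hn.le] at h

end main

end Pool.Agent.Helper33RWB
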